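import Pool.Agent.Helper77.SO.St
import Pool.Agent.Helper35.PM.M_POT

/-!
# MP_7a9ddc_co, project SO, module OGM: no loops, no triangles
-/

set_option autoImplicit false

namespace Pool.Agent.Helper9.SO.OGM

open Equiv Equiv.Perm Pool.Agent.Helper35.PM Pool.Agent.Helper77.HY Pool.Agent.Helper77.OF4
  Pool.Agent.Helper77.SO

/-- a symmetric set of `2 n` darts, `n` odd and at most `3`, with even degrees is impossible -/
theorem key (hPar : StPar) {V D : Type} [Finite D] [DecidableEq V] [DecidableEq D] (M : PMap V D)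
    (L : ℕ) (hL : 4 ≤ L) (hHC : HC M L) (S : Finset D) (hι : ∀ g, M.ι g ∈ S ↔ g ∈ S)
    (hsum : ∀ v, ∑ g ∈ S, (if M.t g = v then (1 : ZMod 2) else 0) = 0)
    (n : ℕ) (hcard : S.card = 2 * n) (hn : Odd n) (hn3 : n ≤ 3) : False := by
  have := Fintype.ofFinite D
  obtain ⟨u, hu⟩ := M_POT.main V D M (fun g => if g ∈ S then 1 else 0) (by
    intro v
    refine Eq.trans ?_ (hsum v)
    rw [Finset.sum_filter]
    have h1 : ∀ g, (if M.t g = v then (if g ∈ S then (1 : ZMod 2) else 0) else 0) =
        if g ∈ S then (if M.t g = v then (1 : ZMod 2) else 0) else 0 := by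
      intro g
      by_cases h1 : M.t g = v <;> by_cases h2 : g ∈ S <;> simp [h1, h2]
    rw [Finset.sum_congr rfl (fun g _ => h1 g)]
    simp)
  obtain ⟨y, hy1, hy2⟩ := M.pl (fun g => if g ∈ S then 1 else 0) u
    (fun g => by simp only [hι]) hu
  have hFC : FC M y := by
    intro g
    rw [PMap.φ_apply, hy1, hy2]
    simp only [hι]
    exact zadd_self' _ _
  have hcut : cut M y = 2 * n := by
    unfold cut
    have h1 : {d | y (M.ι d) ≠ y d} = (S : Set D) := by
      ext g
      simp only [Set.mem_ofPred_eq, Finset.mem_coe, hy2]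
      by_cases hg : g ∈ S
      · simp [hg]
      · simp [hg]
    rw [h1, Set.ncard_coe_finset, hcard]
  obtain ⟨k, hk1, -, hk2⟩ := hPar V D M y hFC
  have hkn : k = n := by omega
  have h1 := hHC y hFC (hk2 (hkn ▸ hn))
  omega

theorem main (hPar : StPar) : StOg := by
  classical
  intro V D _ M L hL hHC
  have hloop : ∀ d, M.t (M.ι d) ≠ M.t d := by
    intro d hd
    refine key hPar M L hL hHC {d, M.ι d} ?_ ?_ 1 ?_ odd_one (by norm_num)
    · intro g
      simp only [Finset.mem_insert, Finset.mem_singleton]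
      constructor
      · rintro (h | h)
        · right
          rw [← h, M.inv]
        · left
          exact M.inv.injective h
      · rintro (h | h)
        · right
          rw [h]
        · left
          rw [h, M.inv]
    · intro v
      rw [Finset.sum_pair (Ne.symm (M.nofix d)), hd]
      exact zadd_self _
    · rw [Finset.card_pair (Ne.symm (M.nofix d))]
  refine ⟨hloop, ?_⟩
  intro d e f h1 h2 h3
  have hne : ∀ a b c, M.t (M.ι a) = M.t b → M.t (M.ι b) = M.t c → M.t (M.ι c) = M.t a →
      a ≠ b ∧ a ≠ M.ι b ∧ M.ι a ≠ b ∧ M.ι a ≠ M.ι b := by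
    intro a b c h1 h2 h3
    have hab : a ≠ b := by
      rintro rfl
      exact hloop a h1
    have hab' : a ≠ M.ι b := by
      intro h
      apply hloop c
      rw [h3, h, h2]
    refine ⟨hab, hab', ?_, ?_⟩
    · intro h
      apply hab'
      rw [← h, M.inv]
    · intro h
      exact hab (M.inv.injective h)
  obtain ⟨a1, a2, a3, a4⟩ := hne d e f h1 h2 h3
  obtain ⟨b1, b2, b3, b4⟩ := hne e f d h2 h3 h1
  obtain ⟨c1, c2, c3, c4⟩ := hne f d e h3 h1 h2
  have e1 : d ∉ ({M.ι d, e, M.ι e, f, M.ι f} : Finset D) := by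
    simp only [Finset.mem_insert, Finset.mem_singleton, not_or]
    exact ⟨Ne.symm (M.nofix d), a1, a2, Ne.symm c1, Ne.symm c3⟩
  have e2 : M.ι d ∉ ({e, M.ι e, f, M.ι f} : Finset D) := by
    simp only [Finset.mem_insert, Finset.mem_singleton, not_or]
    exact ⟨a3, a4, Ne.symm c2, Ne.symm c4⟩
  have e3 : e ∉ ({M.ι e, f, M.ι f} : Finset D) := by
    simp only [Finset.mem_insert, Finset.mem_singleton, not_or]
    exact ⟨Ne.symm (M.nofix e), b1, b2⟩
  have e4 : M.ι e ∉ ({f, M.ι f} : Finset D) := by
    simp only [Finset.mem_insert, Finset.mem_singleton, not_or]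
    exact ⟨b3, b4⟩
  have e5 : f ∉ ({M.ι f} : Finset D) := by
    simp only [Finset.mem_singleton]
    exact Ne.symm (M.nofix f)
  refine key hPar M L hL hHC {d, M.ι d, e, M.ι e, f, M.ι f} ?_ ?_ 3 ?_ (by decide) (by norm_num)
  · intro g
    have hh : ∀ a b, M.ι a = b ↔ a = M.ι b := by
      intro a b
      constructor
      · intro h
        rw [← h, M.inv]
      · intro h
        rw [h, M.inv]
    simp only [Finset.mem_insert, Finset.mem_singleton, hh, M.inv d, M.inv e, M.inv f]
    tauto
  · intro v
    rw [Finset.sum_insert e1, Finset.sum_insert e2, Finset.sum_insert e3, Finset.sum_insert e4,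
      Finset.sum_insert e5, Finset.sum_singleton, h1, h2, h3]
    generalize (if M.t d = v then (1 : ZMod 2) else 0) = x
    generalize (if M.t e = v then (1 : ZMod 2) else 0) = y
    generalize (if M.t f = v then (1 : ZMod 2) else 0) = z
    revert x y z
    decide
  · rw [Finset.card_insert_of_notMem e1, Finset.card_insert_of_notMem e2,
      Finset.card_insert_of_notMem e3, Finset.card_insert_of_notMem e4,
      Finset.card_insert_of_notMem e5, Finset.card_singleton]

end Pool.Agent.Helper9.SO.OGM
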